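import Pool.Agent.Helper79_SIU.LGB

/-!
# SIU, module KFM: the Kähler form of the example and its summands
-/

set_option autoImplicit false

open MeasureTheory Filter Topology

namespace Pool.Agent.SIU.H79

variable {N : ℕ}

theorem differentiableAt_om {V : Set (Fin N → ℂ)} (hV : IsOpen V) {ψ : (Fin N → ℂ) → ℝ}
    (hψ : ContDiffOn ℝ ((⊤ : ℕ∞) : WithTop ℕ∞) ψ V) {z : Fin N → ℂ} (hz : z ∈ V) :
    DifferentiableAt ℝ (om ψ) z :=
  ((contDiffOn_om hV hψ).contDiffAt (hV.mem_nhds hz)).differentiableAt (by simp)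

/-- pull-back of `dd^c` by a complex linear map -/
theorem lp_ddc {V : Set (Fin N → ℂ)} (hV : IsOpen V) {ψ : (Fin N → ℂ) → ℝ}
    (hψ : ContDiffOn ℝ ((⊤ : ℕ∞) : WithTop ℕ∞) ψ V) (L : (Fin N → ℂ) →L[ℂ] (Fin N → ℂ))
    {z : Fin N → ℂ} (hz : L z ∈ V) :
    lp L (ddc (fun w => cst N (ψ w))) z = ddc (fun w => cst N (ψ (L w))) z := by
  have hL : Continuous (fun w => L w) := L.continuous
  have hV' : IsOpen ((fun w => L w) ⁻¹' V) := hV.preimage hL
  have hψ' : ContDiffOn ℝ ((⊤ : ℕ∞) : WithTop ℕ∞) (fun w => ψ (L w)) ((fun w => L w) ⁻¹' V) :=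
    hψ.comp (L.restrictScalars ℝ).contDiff.contDiffOn fun _ h => h
  have hd : ∀ w ∈ V, DifferentiableAt ℝ ψ w := fun w hw =>
    (hψ.contDiffAt (hV.mem_nhds hw)).differentiableAt (by simp)
  have h1 : ∀ w ∈ (fun w => L w) ⁻¹' V, ∀ v, om (fun w => ψ (L w)) w v = om ψ (L w) (L v) := by
    intro w hw v
    have h2 : HasFDerivAt (fun w => ψ (L w))
        ((fderiv ℝ ψ (L w)).comp (L.restrictScalars ℝ)) w :=
      HasFDerivAt.comp w (hd _ hw).hasFDerivAt (L.restrictScalars ℝ).hasFDerivAt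
    show fderiv ℝ (fun w => ψ (L w)) w (Complex.I • v) = fderiv ℝ ψ (L w) (Complex.I • L v)
    rw [h2.fderiv, ← map_smul]
    rfl
  have h3 : ∀ u v, fderiv ℝ (om (fun w => ψ (L w))) z u v = fderiv ℝ (om ψ) (L z) (L u) (L v) := by
    intro u v
    have h4 : HasFDerivAt (fun w => om ψ (L w)) ((fderiv ℝ (om ψ) (L z)).comp
        (L.restrictScalars ℝ)) z :=
      HasFDerivAt.comp z (differentiableAt_om hV hψ hz).hasFDerivAt
        (L.restrictScalars ℝ).hasFDerivAt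
    have h5 := h4.clm_apply (hasFDerivAt_const (L v) z)
    have h6 := (differentiableAt_om hV' hψ' (z := z) hz).hasFDerivAt.clm_apply
      (hasFDerivAt_const v z)
    have h7 : (fun w => om (fun w => ψ (L w)) w v) =ᶠ[𝓝 z] fun w => om ψ (L w) (L v) := by
      filter_upwards [hV'.mem_nhds hz] with w hw
      exact h1 w hw v
    have h8 := congrArg (fun T : (Fin N → ℂ) →L[ℝ] ℝ => T u)
      ((h5.congr_of_eventuallyEq h7).unique h6)
    simp only [add_apply, ContinuousLinearMap.comp_apply,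
      ContinuousLinearMap.flip_apply, zero_apply, map_zero, zero_add] at h8
    exact h8.symm
  ext v
  rw [ddc_cst_apply _ z (differentiableAt_om hV' hψ' (z := z) hz), h3, h3]
  show ddc (fun w => cst N (ψ w)) (L z) (fun i => L (v i)) = _
  rw [ddc_cst_apply _ _ (differentiableAt_om hV hψ hz)]

/-- additivity of `dd^c` -/
theorem ddc_add {V : Set (Fin N → ℂ)} (hV : IsOpen V) {ψ ψ' : (Fin N → ℂ) → ℝ}
    (hψ : ContDiffOn ℝ ((⊤ : ℕ∞) : WithTop ℕ∞) ψ V)
    (hψ' : ContDiffOn ℝ ((⊤ : ℕ∞) : WithTop ℕ∞) ψ' V) {z : Fin N → ℂ} (hz : z ∈ V) :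
    ddc (fun w => cst N (ψ w + ψ' w)) z
      = ddc (fun w => cst N (ψ w)) z + ddc (fun w => cst N (ψ' w)) z := by
  have hd : ∀ w ∈ V, DifferentiableAt ℝ ψ w := fun w hw =>
    (hψ.contDiffAt (hV.mem_nhds hw)).differentiableAt (by simp)
  have hd' : ∀ w ∈ V, DifferentiableAt ℝ ψ' w := fun w hw =>
    (hψ'.contDiffAt (hV.mem_nhds hw)).differentiableAt (by simp)
  have h1 : om (fun w => ψ w + ψ' w) =ᶠ[𝓝 z] fun w => om ψ w + om ψ' w := by
    filter_upwards [hV.mem_nhds hz] with w hw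
    unfold om
    rw [fderiv_fun_add (hd w hw) (hd' w hw), ContinuousLinearMap.add_comp]
  have h2 := (differentiableAt_om hV hψ hz).hasFDerivAt.add
    (differentiableAt_om hV hψ' hz).hasFDerivAt
  have h3 := h2.congr_of_eventuallyEq h1
  ext v
  rw [ddc_cst_apply _ z h3.differentiableAt, h3.fderiv]
  show _ = ddc (fun w => cst N (ψ w)) z v + ddc (fun w => cst N (ψ' w)) z v
  rw [ddc_cst_apply _ z (differentiableAt_om hV hψ hz),
    ddc_cst_apply _ z (differentiableAt_om hV hψ' hz)]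
  simp only [add_apply]
  ring

theorem contDiff_nsq (j : Fin 7) : ContDiff ℝ ((⊤ : ℕ∞) : WithTop ℕ∞) (fun z : E7 => ‖z j‖ ^ 2) :=
  (contDiff_norm_sq ℝ).comp (contDiff_apply ℝ ℂ j)

theorem contDiff_AA : ContDiff ℝ ((⊤ : ℕ∞) : WithTop ℕ∞) AA :=
  (contDiff_nsq 0).add (contDiff_nsq 1)

theorem contDiff_BB : ContDiff ℝ ((⊤ : ℕ∞) : WithTop ℕ∞) BB :=
  (contDiff_nsq 2).add (contDiff_nsq 3)

theorem contDiff_DD : ContDiff ℝ ((⊤ : ℕ∞) : WithTop ℕ∞) DD :=
  (((contDiff_nsq 0).add (contDiff_nsq 1)).mul ((contDiff_nsq 2).add (contDiff_nsq 3))).add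
    (contDiff_nsq 4)

theorem contDiff_YY : ContDiff ℝ ((⊤ : ℕ∞) : WithTop ℕ∞) YY :=
  (contDiff_nsq 5).add (contDiff_nsq 6)

theorem cAA : ContDiffOn ℝ ((⊤ : ℕ∞) : WithTop ℕ∞) (fun w => Real.log (AA w)) X2.U :=
  contDiff_AA.contDiffOn.log fun _ hz => (AA_pos hz).ne'

theorem cDD : ContDiffOn ℝ ((⊤ : ℕ∞) : WithTop ℕ∞) (fun w => Real.log (DD w)) X2.U :=
  contDiff_DD.contDiffOn.log fun _ hz => (DD_pos hz).ne'

theorem cYY : ContDiffOn ℝ ((⊤ : ℕ∞) : WithTop ℕ∞) (fun w => Real.log (YY w)) X2.U :=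
  contDiff_YY.contDiffOn.log fun _ hz => (YY_pos hz).ne'

theorem kfm (hlnk : LnkStmt) (hlgb : LgbStmt) : KfmStmt := by
  refine ⟨fun z hz => ?_, fun z hz => ?_, fun η hη => ?_, fun z hz => ⟨?_, ?_, ?_⟩⟩
  · unfold Toric.kahler kL kH kY
    have h1 : (fun w : E7 => cst 7 (∑ j, Real.log (X2.A j w)))
        = fun w => cst 7 ((Real.log (AA w) + Real.log (DD w)) + Real.log (YY w)) := by
      funext w
      rw [Fin.sum_univ_three]
      rfl
    rw [h1, ddc_add isOpen_U (cAA.add cDD) cYY hz, ddc_add isOpen_U cAA cDD hz]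
  · exact hlnk.2 7 (X2.kahler z)
  · have hU : ∀ w ∈ X2.U, ∀ c : Fin 3 → ℂ, (∀ j, c j ≠ 0) → X2.act c w ∈ X2.U :=
      fun w hw c hc => (act_mem_U hc w).2 hw
    rcases hη with rfl | rfl | rfl
    · exact hlgb 7 3 4 X2 X2.U isOpen_U hU (fun w => Real.log (AA w))
        (fun c => Real.log (‖c 0‖ ^ 2)) cAA fun z hz c hc => by
          show Real.log (AA (X2.act c z)) = _
          have h0 : ‖c 0‖ ≠ 0 := norm_ne_zero_iff.mpr (hc 0)
          rw [AA_act, Real.log_mul (pow_ne_zero 2 h0) (AA_pos hz).ne', add_comm]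
    · exact hlgb 7 3 4 X2 X2.U isOpen_U hU (fun w => Real.log (DD w))
        (fun c => Real.log (‖c 1‖ ^ 2)) cDD fun z hz c hc => by
          show Real.log (DD (X2.act c z)) = _
          have h0 : ‖c 1‖ ≠ 0 := norm_ne_zero_iff.mpr (hc 1)
          rw [DD_act hc, Real.log_mul (pow_ne_zero 2 h0) (DD_pos hz).ne', add_comm]
    · exact hlgb 7 3 4 X2 X2.U isOpen_U hU (fun w => Real.log (YY w))
        (fun c => Real.log (‖c 2‖ ^ 2)) cYY fun z hz c hc => by
          show Real.log (YY (X2.act c z)) = _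
          have h0 : ‖c 2‖ ≠ 0 := norm_ne_zero_iff.mpr (hc 2)
          rw [YY_act, Real.log_mul (pow_ne_zero 2 h0) (YY_pos hz).ne', add_comm]
  · have h1 := lp_ddc isOpen_U cDD flop (z := z) (flop_mem hz).1
    simp only [DD_flop] at h1
    exact h1
  · have h1 := lp_ddc isOpen_U cYY flop (z := z) (flop_mem hz).1
    simp only [YY_flop] at h1
    exact h1
  · have h1 := lp_ddc isOpen_U cAA flop (z := z) (flop_mem hz).1
    simp only [AA_flop] at h1
    exact h1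

end Pool.Agent.SIU.H79
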