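import Pool.Agent.Helper15_SIU.Stmts

/-!
# SIU, module LGB: `dd^c ψ` is basic if `ψ(c z) = ψ(z) + κ(c)`
-/

set_option autoImplicit false

open MeasureTheory Filter Topology

namespace Pool.Agent.SIU.H79

variable {N r n : ℕ}

/-- the covector field `v ↦ dψ(w)(i v)` -/
noncomputable def om (ψ : (Fin N → ℂ) → ℝ) (w : Fin N → ℂ) : (Fin N → ℂ) →L[ℝ] ℝ :=
  (fderiv ℝ ψ w).comp (mulC N Complex.I)

theorem mulC_apply (u : ℂ) (v : Fin N → ℂ) : mulC N u v = u • v := rfl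

/-- covectors as alternating forms of degree one -/
noncomputable def LI (N : ℕ) : ((Fin N → ℂ) →L[ℝ] ℝ) →L[ℝ] Alt N 1 :=
  ((ContinuousAlternatingMap.ofSubsingletonLIE (𝕜 := ℝ) (E := Fin N → ℂ) (F := ℝ)
    (0 : Fin 1)).toContinuousLinearEquiv : ((Fin N → ℂ) →L[ℝ] ℝ) →L[ℝ] Alt N 1)

theorem LI_apply (c : (Fin N → ℂ) →L[ℝ] ℝ) (v : Fin 1 → Fin N → ℂ) : LI N c v = c (v 0) := rfl

theorem theta_eq (ψ : (Fin N → ℂ) → ℝ) (w : Fin N → ℂ) :
    (extDeriv (fun w => cst N (ψ w)) w).compContinuousLinearMap (mulC N Complex.I)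
      = LI N (om ψ w) := by
  unfold cst
  rw [extDeriv_constOfIsEmpty]
  ext v
  rfl

theorem contDiffOn_om {ψ : (Fin N → ℂ) → ℝ} {V : Set (Fin N → ℂ)} (hV : IsOpen V)
    (h : ContDiffOn ℝ ((⊤ : ℕ∞) : WithTop ℕ∞) ψ V) :
    ContDiffOn ℝ ((⊤ : ℕ∞) : WithTop ℕ∞) (om ψ) V := by
  have h1 : ContDiffOn ℝ ((⊤ : ℕ∞) : WithTop ℕ∞) (fderiv ℝ ψ) V := by
    refine h.fderiv_of_isOpen hV ?_
    exact le_of_eq rfl
  exact h1.clm_comp contDiffOn_const

theorem ddc_eq (ψ : (Fin N → ℂ) → ℝ) (z : Fin N → ℂ) :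
    ddc (fun w => cst N (ψ w)) z = - extDeriv (fun w => LI N (om ψ w)) z := by
  unfold ddc
  rw [show (fun w => (extDeriv (fun w => cst N (ψ w)) w).compContinuousLinearMap
    (mulC N Complex.I)) = fun w => LI N (om ψ w) from funext fun w => theta_eq ψ w]

theorem ddc_cst_apply (ψ : (Fin N → ℂ) → ℝ) (z : Fin N → ℂ)
    (h : DifferentiableAt ℝ (om ψ) z) (v : Fin 2 → Fin N → ℂ) :
    ddc (fun w => cst N (ψ w)) z v
      = fderiv ℝ (om ψ) z (v 1) (v 0) - fderiv ℝ (om ψ) z (v 0) (v 1) := by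
  have h1 : HasFDerivAt (fun w => LI N (om ψ w)) ((LI N).comp (fderiv ℝ (om ψ) z)) z :=
    (LI N).hasFDerivAt.comp z h.hasFDerivAt
  rw [ddc_eq]
  show - (extDeriv _ z v) = _
  unfold extDeriv
  rw [h1.fderiv, ContinuousAlternatingMap.alternatizeUncurryFin_apply, Fin.sum_univ_two]
  simp only [Fin.val_zero, pow_zero, one_smul, Fin.val_one, pow_one, neg_smul, neg_add_rev,
    neg_neg]
  show fderiv ℝ (om ψ) z (v 1) ((1 : Fin 2).removeNth v 0) +
    -fderiv ℝ (om ψ) z (v 0) ((0 : Fin 2).removeNth v 0) = _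
  rw [sub_eq_add_neg]
  rfl

/-- the action as a real linear map -/
noncomputable def aL (X : Toric N r n) (c : Fin r → ℂ) : (Fin N → ℂ) →L[ℝ] (Fin N → ℂ) :=
  (ContinuousLinearMap.pi fun m => (∏ j, c j ^ X.wt m j) •
    (ContinuousLinearMap.proj m : (Fin N → ℂ) →L[ℂ] ℂ)).restrictScalars ℝ

theorem aL_apply (X : Toric N r n) (c : Fin r → ℂ) (z : Fin N → ℂ) : aL X c z = X.act c z := rfl

/-- the vector field of the action -/
noncomputable def vL (X : Toric N r n) (a : Fin r → ℂ) : (Fin N → ℂ) →L[ℝ] (Fin N → ℂ) :=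
  (ContinuousLinearMap.pi fun m => (∑ j, a j * X.wt m j) •
    (ContinuousLinearMap.proj m : (Fin N → ℂ) →L[ℂ] ℂ)).restrictScalars ℝ

theorem vL_apply (X : Toric N r n) (a : Fin r → ℂ) (z : Fin N → ℂ) (m : Fin N) :
    vL X a z m = (∑ j, a j * X.wt m j) * z m := rfl

/-- the one parameter subgroup -/
noncomputable def ex (a : Fin r → ℂ) (t : ℝ) : Fin r → ℂ := fun j => Complex.exp ((t : ℂ) * a j)

theorem ex_ne (a : Fin r → ℂ) (t : ℝ) (j : Fin r) : ex a t j ≠ 0 := Complex.exp_ne_zero _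

theorem act_ex (X : Toric N r n) (a : Fin r → ℂ) (t : ℝ) (z : Fin N → ℂ) (m : Fin N) :
    X.act (ex a t) z m = Complex.exp ((t : ℂ) * ∑ j, a j * X.wt m j) * z m := by
  unfold Toric.act ex
  congr 1
  rw [Finset.mul_sum, Complex.exp_sum]
  refine Finset.prod_congr rfl fun j _ => ?_
  rw [← Complex.exp_int_mul]
  congr 1
  ring

theorem act_ex_zero (X : Toric N r n) (a : Fin r → ℂ) (z : Fin N → ℂ) :
    X.act (ex a 0) z = z := by
  funext m
  rw [act_ex]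
  simp

theorem hasDerivAt_act_ex (X : Toric N r n) (a : Fin r → ℂ) (z : Fin N → ℂ) :
    HasDerivAt (fun t : ℝ => X.act (ex a t) z) (vL X a z) 0 := by
  rw [hasDerivAt_pi]
  intro m
  have h1 : HasDerivAt (fun t : ℝ => ((t : ℂ) * ∑ j, a j * X.wt m j))
      (1 * ∑ j, a j * X.wt m j) 0 :=
    (Complex.ofRealCLM.hasDerivAt (x := (0 : ℝ))).mul_const _
  have h2 : HasDerivAt (fun t : ℝ => Complex.exp ((t : ℂ) * ∑ j, a j * X.wt m j) * z m)
      (Complex.exp (((0 : ℝ) : ℂ) * ∑ j, a j * X.wt m j) * (1 * ∑ j, a j * X.wt m j) * z m) 0 :=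
    (h1.cexp).mul_const _
  have h3 : (fun t : ℝ => X.act (ex a t) z m)
      = fun t : ℝ => Complex.exp ((t : ℂ) * ∑ j, a j * X.wt m j) * z m :=
    funext fun t => act_ex X a t z m
  rw [h3]
  have h4 : Complex.exp (((0 : ℝ) : ℂ) * ∑ j, a j * X.wt m j) * (1 * ∑ j, a j * X.wt m j) * z m
      = vL X a z m := by
    rw [vL_apply]
    simp
  rw [← h4]
  exact h2

section main

variable {X : Toric N r n} {V : Set (Fin N → ℂ)} {ψ : (Fin N → ℂ) → ℝ} {κ : (Fin r → ℂ) → ℝ}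

theorem om_act (hV : IsOpen V)
    (hact : ∀ w ∈ V, ∀ c : Fin r → ℂ, (∀ j, c j ≠ 0) → X.act c w ∈ V)
    (hψ : ContDiffOn ℝ ((⊤ : ℕ∞) : WithTop ℕ∞) ψ V)
    (hκ : ∀ z ∈ V, ∀ c : Fin r → ℂ, (∀ j, c j ≠ 0) → ψ (X.act c z) = ψ z + κ c)
    {z : Fin N → ℂ} (hz : z ∈ V) {c : Fin r → ℂ} (hc : ∀ j, c j ≠ 0) (v : Fin N → ℂ) :
    om ψ (X.act c z) (X.act c v) = om ψ z v := by
  have hd : ∀ w ∈ V, DifferentiableAt ℝ ψ w := fun w hw =>
    (hψ.contDiffAt (hV.mem_nhds hw)).differentiableAt (by simp)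
  have h1 : HasFDerivAt (fun w => ψ (aL X c w)) ((fderiv ℝ ψ (aL X c z)).comp (aL X c)) z :=
    (hd _ (hact z hz c hc)).hasFDerivAt.comp z (aL X c).hasFDerivAt
  have h2 : HasFDerivAt (fun w => ψ w + κ c) (fderiv ℝ ψ z) z :=
    (hd z hz).hasFDerivAt.add_const _
  have h3 : (fun w => ψ (aL X c w)) =ᶠ[𝓝 z] fun w => ψ w + κ c := by
    filter_upwards [hV.mem_nhds hz] with w hw
    exact hκ w hw c hc
  have h4 := (h2.congr_of_eventuallyEq h3).unique h1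
  have h5 := congrArg (fun T : (Fin N → ℂ) →L[ℝ] ℝ => T (Complex.I • v)) h4
  show fderiv ℝ ψ (X.act c z) (Complex.I • X.act c v) = fderiv ℝ ψ z (Complex.I • v)
  have h6 : Complex.I • X.act c v = aL X c (Complex.I • v) := by
    rw [aL_apply]
    funext m
    simp only [Toric.act, Pi.smul_apply, smul_eq_mul]
    ring
  rw [h6]
  exact h5.symm

theorem om_vert (hV : IsOpen V)
    (hψ : ContDiffOn ℝ ((⊤ : ℕ∞) : WithTop ℕ∞) ψ V)
    (hκ : ∀ z ∈ V, ∀ c : Fin r → ℂ, (∀ j, c j ≠ 0) → ψ (X.act c z) = ψ z + κ c)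
    (a : Fin r → ℂ) {z w : Fin N → ℂ} (hz : z ∈ V) (hw : w ∈ V) :
    om ψ w (vL X a w) = om ψ z (vL X a z) := by
  have hd : ∀ w ∈ V, DifferentiableAt ℝ ψ w := fun w hw =>
    (hψ.contDiffAt (hV.mem_nhds hw)).differentiableAt (by simp)
  have key : ∀ w ∈ V, HasDerivAt (fun t : ℝ => κ (ex (fun j => Complex.I * a j) t))
      (om ψ w (vL X a w)) 0 := by
    intro w hw
    have h1 : HasDerivAt (fun t : ℝ => ψ (X.act (ex (fun j => Complex.I * a j) t) w))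
        (fderiv ℝ ψ w (vL X (fun j => Complex.I * a j) w)) 0 := by
      have h2 := hasDerivAt_act_ex X (fun j => Complex.I * a j) w
      have h3 : HasFDerivAt ψ (fderiv ℝ ψ w)
          (X.act (ex (fun j => Complex.I * a j) 0) w) := by
        rw [act_ex_zero]
        exact (hd w hw).hasFDerivAt
      exact h3.comp_hasDerivAt (0 : ℝ) h2
    have h4 : (fun t : ℝ => κ (ex (fun j => Complex.I * a j) t))
        = fun t : ℝ => ψ (X.act (ex (fun j => Complex.I * a j) t) w) - ψ w := by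
      funext t
      rw [hκ w hw _ (ex_ne _ t)]
      ring
    rw [h4]
    have h5 : vL X (fun j => Complex.I * a j) w = Complex.I • vL X a w := by
      funext m
      rw [vL_apply, Pi.smul_apply, vL_apply, smul_eq_mul, ← mul_assoc, Finset.mul_sum]
      congr 1
      exact Finset.sum_congr rfl fun j _ => by ring
    rw [h5] at h1
    exact h1.sub_const _
  exact (key w hw).unique (key z hz)

theorem d_om_vert_right (hV : IsOpen V)
    (hψ : ContDiffOn ℝ ((⊤ : ℕ∞) : WithTop ℕ∞) ψ V)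
    (hκ : ∀ z ∈ V, ∀ c : Fin r → ℂ, (∀ j, c j ≠ 0) → ψ (X.act c z) = ψ z + κ c)
    (a : Fin r → ℂ) {z : Fin N → ℂ} (hz : z ∈ V) (u : Fin N → ℂ) :
    fderiv ℝ (om ψ) z u (vL X a z) = - om ψ z (vL X a u) := by
  have hdo : DifferentiableAt ℝ (om ψ) z :=
    ((contDiffOn_om hV hψ).contDiffAt (hV.mem_nhds hz)).differentiableAt (by simp)
  have h1 := hdo.hasFDerivAt.clm_apply (vL X a).hasFDerivAt
  have h2 : (fun w => om ψ w (vL X a w)) =ᶠ[𝓝 z] fun _ => om ψ z (vL X a z) := by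
    filter_upwards [hV.mem_nhds hz] with w hw
    exact om_vert hV hψ hκ a hz hw
  have h3 := ((hasFDerivAt_const (om ψ z (vL X a z)) z).congr_of_eventuallyEq h2).unique h1
  have h4 := congrArg (fun T : (Fin N → ℂ) →L[ℝ] ℝ => T u) h3
  simp only [add_apply, ContinuousLinearMap.comp_apply,
    ContinuousLinearMap.flip_apply, zero_apply] at h4
  linarith

theorem d_om_vert_left (hV : IsOpen V)
    (hact : ∀ w ∈ V, ∀ c : Fin r → ℂ, (∀ j, c j ≠ 0) → X.act c w ∈ V)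
    (hψ : ContDiffOn ℝ ((⊤ : ℕ∞) : WithTop ℕ∞) ψ V)
    (hκ : ∀ z ∈ V, ∀ c : Fin r → ℂ, (∀ j, c j ≠ 0) → ψ (X.act c z) = ψ z + κ c)
    (a : Fin r → ℂ) {z : Fin N → ℂ} (hz : z ∈ V) (u : Fin N → ℂ) :
    fderiv ℝ (om ψ) z (vL X a z) u = - om ψ z (vL X a u) := by
  have hdo : DifferentiableAt ℝ (om ψ) z :=
    ((contDiffOn_om hV hψ).contDiffAt (hV.mem_nhds hz)).differentiableAt (by simp)
  have h1 : HasDerivAt (fun t : ℝ => om ψ (X.act (ex a t) z))
      (fderiv ℝ (om ψ) z (vL X a z)) 0 := by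
    have h3 : HasFDerivAt (om ψ) (fderiv ℝ (om ψ) z) (X.act (ex a 0) z) := by
      rw [act_ex_zero]
      exact hdo.hasFDerivAt
    exact h3.comp_hasDerivAt (0 : ℝ) (hasDerivAt_act_ex X a z)
  have h2 := h1.clm_apply (hasDerivAt_act_ex X a u)
  have h3 : (fun t : ℝ => om ψ (X.act (ex a t) z) (X.act (ex a t) u)) = fun _ => om ψ z u :=
    funext fun t => om_act hV hact hψ hκ hz (ex_ne a t) u
  rw [h3, act_ex_zero, act_ex_zero] at h2
  have h4 := h2.unique (hasDerivAt_const (0 : ℝ) (om ψ z u))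
  linarith

theorem d_om_act (hV : IsOpen V)
    (hact : ∀ w ∈ V, ∀ c : Fin r → ℂ, (∀ j, c j ≠ 0) → X.act c w ∈ V)
    (hψ : ContDiffOn ℝ ((⊤ : ℕ∞) : WithTop ℕ∞) ψ V)
    (hκ : ∀ z ∈ V, ∀ c : Fin r → ℂ, (∀ j, c j ≠ 0) → ψ (X.act c z) = ψ z + κ c)
    {z : Fin N → ℂ} (hz : z ∈ V) {c : Fin r → ℂ} (hc : ∀ j, c j ≠ 0) (u v : Fin N → ℂ) :
    fderiv ℝ (om ψ) (X.act c z) (X.act c u) (X.act c v) = fderiv ℝ (om ψ) z u v := by
  have hdo : ∀ w ∈ V, DifferentiableAt ℝ (om ψ) w := fun w hw =>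
    ((contDiffOn_om hV hψ).contDiffAt (hV.mem_nhds hw)).differentiableAt (by simp)
  have h1 : HasFDerivAt (fun w => om ψ (aL X c w))
      ((fderiv ℝ (om ψ) (aL X c z)).comp (aL X c)) z :=
    (hdo _ (hact z hz c hc)).hasFDerivAt.comp z (aL X c).hasFDerivAt
  have h2 := h1.clm_apply (hasFDerivAt_const (aL X c v) z)
  have h3 := (hdo z hz).hasFDerivAt.clm_apply (hasFDerivAt_const v z)
  have h4 : (fun w => om ψ (aL X c w) (aL X c v)) =ᶠ[𝓝 z] fun w => om ψ w v := by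
    filter_upwards [hV.mem_nhds hz] with w hw
    exact om_act hV hact hψ hκ hw hc v
  have h5 := (h3.congr_of_eventuallyEq h4).unique h2
  have h6 := congrArg (fun T : (Fin N → ℂ) →L[ℝ] ℝ => T u) h5
  simp only [add_apply, ContinuousLinearMap.comp_apply,
    ContinuousLinearMap.flip_apply, zero_apply, map_zero, zero_add] at h6
  exact h6.symm

end main

theorem lgb : LgbStmt := by
  intro N r n X V hV hact ψ κ hψ hκ
  have hdo : ∀ w ∈ V, DifferentiableAt ℝ (om ψ) w := fun w hw =>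
    ((contDiffOn_om hV hψ).contDiffAt (hV.mem_nhds hw)).differentiableAt (by simp)
  refine ⟨⟨fun z hz c hc v => ?_, fun z hz v i hv => ?_⟩, ?_⟩
  · rw [ddc_cst_apply ψ _ (hdo _ (hact z hz c hc)), ddc_cst_apply ψ _ (hdo z hz),
      d_om_act hV hact hψ hκ hz hc, d_om_act hV hact hψ hκ hz hc]
  · rw [ddc_cst_apply ψ _ (hdo z hz)]
    obtain ⟨a, ha⟩ := hv
    have hva : v i = vL X a z := funext fun m => ha m
    have hi : i = 0 ∨ i = 1 := by
      fin_cases i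
      · exact Or.inl rfl
      · exact Or.inr rfl
    rcases hi with rfl | rfl
    · rw [hva, d_om_vert_right hV hψ hκ a hz, d_om_vert_left hV hact hψ hκ a hz, sub_self]
    · rw [hva, d_om_vert_right hV hψ hκ a hz, d_om_vert_left hV hact hψ hκ a hz, sub_self]
  · have h1 : ContDiffOn ℝ ((⊤ : ℕ∞) : WithTop ℕ∞) (fun w => LI N (om ψ w)) V :=
      (LI N).contDiff.comp_contDiffOn (contDiffOn_om hV hψ)
    have h2 : ContDiffOn ℝ ((⊤ : ℕ∞) : WithTop ℕ∞) (fderiv ℝ (fun w => LI N (om ψ w))) V :=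
      h1.fderiv_of_isOpen hV (le_of_eq rfl)
    have h3 := (ContinuousAlternatingMap.alternatizeUncurryFinCLM (n := 1) ℝ (Fin N → ℂ)
      ℝ).contDiff.comp_contDiffOn h2
    refine h3.neg.congr fun z hz => ?_
    rw [ddc_eq]
    rfl

end Pool.Agent.SIU.H79
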